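import Pool.Agent.H4.FV.Stm

set_option autoImplicit false
set_option linter.unusedVariables false

/-! Vaught's conjecture for first-order theories of nilpotent commutative semigroups: the leaf N
(helper97). -/

namespace Pool.Agent.H97.FV

open FirstOrder FirstOrder.Language
open Pool.Agent.W889.FO
open Pool.Agent.W889.FO.StA (FD.all1 FD.ex1)
open Pool.Agent.W889.FO.StE (LG gd)
open Pool.Agent.W889.SD (Big)
open Pool.Agent.H4.VG
open Pool.Agent.H4.FV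
open Pool.Agent.N649.SV

/-- the elements which are not products -/
def dmN (μ : ℕ → ℕ → ℕ) (x : ℕ) : Prop := ∀ y z, μ y z ≠ x

/-- the graph -/
def rlN (μ : ℕ → ℕ → ℕ) (x y : ℕ) : Prop := dmN μ x ∧ dmN μ y ∧ μ x y ≠ μ x x

/-- the coded operations, with the zero `c` and the other product `a` -/
def FNc (μ : ℕ → ℕ → ℕ) (c a : ℕ) : Prop :=
  c ≠ a ∧ (∃ x y, μ x y = a) ∧ (∀ x y, μ x y = c ∨ μ x y = a) ∧
    (∀ x, μ c x = c ∧ μ x c = c ∧ μ a x = c ∧ μ x a = c ∧ μ x x = c) ∧ ∀ x y, μ x y = μ y x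

/-- the coded operations -/
def FN (μ : ℕ → ℕ → ℕ) : Prop := ∃ c a, FNc μ c a

theorem dm_iff {μ : ℕ → ℕ → ℕ} {c a : ℕ} (h : FNc μ c a) (x : ℕ) :
    dmN μ x ↔ x ≠ c ∧ x ≠ a := by
  obtain ⟨h1, ⟨y, z, h2⟩, h3, h4, h5⟩ := h
  constructor
  · intro hx
    refine ⟨fun e => hx c c ?_, fun e => hx y z ?_⟩
    · rw [e]
      exact (h4 c).1
    · rw [e]
      exact h2
  · rintro ⟨hc, ha⟩ y z e
    rcases h3 y z with h | h
    · exact hc (e.symm.trans h)
    · exact ha (e.symm.trans h)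

theorem rl_iff {μ : ℕ → ℕ → ℕ} {c a : ℕ} (h : FNc μ c a) {x y : ℕ} (hx : dmN μ x)
    (hy : dmN μ y) : rlN μ x y ↔ μ x y = a := by
  obtain ⟨h1, h2, h3, h4, h5⟩ := h
  unfold rlN
  rw [(h4 x).2.2.2.2]
  constructor
  · rintro ⟨-, -, h⟩
    exact (h3 x y).resolve_left h
  · intro h
    refine ⟨hx, hy, fun e => h1 ?_⟩
    rw [← e, h]

/-- the two products -/
theorem two {μ : ℕ → ℕ → ℕ} {c a : ℕ} (h : FNc μ c a) :
    ∃ e : Bool ≃ {x // ¬ dmN μ x}, (e false : ℕ) = c ∧ (e true : ℕ) = a := by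
  have hc : ¬ dmN μ c := fun hx => ((dm_iff h c).1 hx).1 rfl
  have ha : ¬ dmN μ a := fun hx => ((dm_iff h a).1 hx).2 rfl
  have hb : Function.Bijective (fun b : Bool => (match b with
      | false => ⟨c, hc⟩
      | true => ⟨a, ha⟩ : {x // ¬ dmN μ x})) := by
    constructor
    · intro b b' hbb
      cases b <;> cases b'
      · rfl
      · exact absurd (Subtype.ext_iff.1 hbb) h.1
      · exact absurd (Subtype.ext_iff.1 hbb).symm h.1
      · rfl
    · rintro ⟨x, hx⟩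
      rw [dm_iff h] at hx
      by_cases h1 : x = c
      · exact ⟨false, Subtype.ext h1.symm⟩
      · by_cases h2 : x = a
        · exact ⟨true, Subtype.ext h2.symm⟩
        · exact absurd ⟨h1, h2⟩ hx
  exact ⟨Equiv.ofBijective _ hb, rfl, rfl⟩

section

variable {α : Type} {p q : LR.Structure ℕ → (α → ℕ) → ℕ}

theorem fd_dmN (hp : FT p) : FD (St0.W (L := LM)) (fun S v => dmN (ml S) (p S v)) :=
  FD.all1 (P := fun S v y => ∀ z, ml S y z ≠ p S v) <|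
  FD.all1 (P := fun S w z => ml S (w (Sum.inr ())) z ≠ p S (fun i => w (Sum.inl i))) <|
  (eqT ((FT.var _).mul (FT.var _)) ((hp.sub Sum.inl).sub Sum.inl)).not

theorem fd_rlN (hp : FT p) (hq : FT q) :
    FD (St0.W (L := LM)) (fun S v => rlN (ml S) (p S v) (q S v)) :=
  (fd_dmN hp).and ((fd_dmN hq).and (eqT (hp.mul hq) (hp.mul hp)).not)

end

theorem ax_N : Ax (fun S : LR.Structure ℕ => St0.W S ∧ FN (ml S)) :=
  axf (P := fun S => FN (ml S)) <|
  FD.ex1 (P := fun S _ c => ∃ a, c ≠ a ∧ (∃ x y, ml S x y = a) ∧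
    (∀ x y, ml S x y = c ∨ ml S x y = a) ∧
    (∀ x, ml S c x = c ∧ ml S x c = c ∧ ml S a x = c ∧ ml S x a = c ∧ ml S x x = c) ∧
    ∀ x y, ml S x y = ml S y x) <|
  FD.ex1 (P := fun S w a => w (Sum.inr ()) ≠ a ∧ (∃ x y, ml S x y = a) ∧
    (∀ x y, ml S x y = w (Sum.inr ()) ∨ ml S x y = a) ∧
    (∀ x, ml S (w (Sum.inr ())) x = w (Sum.inr ()) ∧ ml S x (w (Sum.inr ())) = w (Sum.inr ()) ∧
      ml S a x = w (Sum.inr ()) ∧ ml S x a = w (Sum.inr ()) ∧ ml S x x = w (Sum.inr ())) ∧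
    ∀ x y, ml S x y = ml S y x) <|
  (eqT (FT.var _) (FT.var _)).not.and <|
  FD.and (FD.ex1 (P := fun S w x => ∃ y, ml S x y = w (Sum.inr ())) <|
    FD.ex1 (P := fun S w y => ml S (w (Sum.inr ())) y = w (Sum.inl (Sum.inr ()))) <|
    eqT ((FT.var _).mul (FT.var _)) (FT.var _)) <|
  FD.and (FD.all1 (P := fun S w x => ∀ y, ml S x y = w (Sum.inl (Sum.inr ())) ∨
      ml S x y = w (Sum.inr ())) <|
    FD.all1 (P := fun S w y => ml S (w (Sum.inr ())) y = w (Sum.inl (Sum.inl (Sum.inr ()))) ∨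
      ml S (w (Sum.inr ())) y = w (Sum.inl (Sum.inr ()))) <|
    (eqT ((FT.var _).mul (FT.var _)) (FT.var _)).or
      (eqT ((FT.var _).mul (FT.var _)) (FT.var _))) <|
  FD.and (FD.all1 (P := fun S w x =>
      ml S (w (Sum.inl (Sum.inr ()))) x = w (Sum.inl (Sum.inr ())) ∧
      ml S x (w (Sum.inl (Sum.inr ()))) = w (Sum.inl (Sum.inr ())) ∧
      ml S (w (Sum.inr ())) x = w (Sum.inl (Sum.inr ())) ∧
      ml S x (w (Sum.inr ())) = w (Sum.inl (Sum.inr ())) ∧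
      ml S x x = w (Sum.inl (Sum.inr ()))) <|
    (eqT ((FT.var _).mul (FT.var _)) (FT.var _)).and <|
    (eqT ((FT.var _).mul (FT.var _)) (FT.var _)).and <|
    (eqT ((FT.var _).mul (FT.var _)) (FT.var _)).and <|
    (eqT ((FT.var _).mul (FT.var _)) (FT.var _)).and <|
    eqT ((FT.var _).mul (FT.var _)) (FT.var _)) <|
  FD.all1 (P := fun S w x => ∀ y, ml S x y = ml S y x) <|
  FD.all1 (P := fun S w y => ml S (w (Sum.inr ())) y = ml S y (w (Sum.inr ()))) <|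
  eqT ((FT.var _).mul (FT.var _)) ((FT.var _).mul (FT.var _))

theorem up_N (μ μ' : ℕ → ℕ → ℕ) (hμ : FN μ) (hμ' : FN μ')
    (τ : {x // dmN μ x} ≃ {x // dmN μ' x})
    (hτ : ∀ x y : {x // dmN μ x}, rlN μ' (τ x) (τ y) ↔ rlN μ x y) :
    ∃ σ : Equiv.Perm ℕ, ∀ a b, σ (μ a b) = μ' (σ a) (σ b) := by
  classical
  obtain ⟨c, a, h⟩ := hμ
  obtain ⟨c', a', h'⟩ := hμ'
  obtain ⟨e, e1, e2⟩ := two h
  obtain ⟨e', e1', e2'⟩ := two h'
  let f : {x // ¬ dmN μ x} ≃ {x // ¬ dmN μ' x} := e.symm.trans e'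
  let σ : Equiv.Perm ℕ := Equiv.subtypeCongr τ f
  have s1 : ∀ x : {x // dmN μ x}, σ x = τ x := fun x => by
    show Equiv.subtypeCongr τ f x = _
    unfold Equiv.subtypeCongr
    simp
  have s2 : ∀ x : {x // ¬ dmN μ x}, σ x = f x := fun x => by
    show Equiv.subtypeCongr τ f x = _
    unfold Equiv.subtypeCongr
    simp
  have sc : σ c = c' := by
    rw [← e1, s2]
    show ((e' (e.symm (e false)) : {x // ¬ dmN μ' x}) : ℕ) = c'
    rw [e.symm_apply_apply, e1']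
  have sa : σ a = a' := by
    rw [← e2, s2]
    show ((e' (e.symm (e true)) : {x // ¬ dmN μ' x}) : ℕ) = a'
    rw [e.symm_apply_apply, e2']
  refine ⟨σ, fun x y => ?_⟩
  by_cases hx : dmN μ x
  · by_cases hy : dmN μ y
    · have hx' : dmN μ' (σ x) := by
        rw [s1 ⟨x, hx⟩]
        exact (τ ⟨x, hx⟩).2
      have hy' : dmN μ' (σ y) := by
        rw [s1 ⟨y, hy⟩]
        exact (τ ⟨y, hy⟩).2
      have h1 : μ' (σ x) (σ y) = a' ↔ μ x y = a := by
        rw [← rl_iff h' hx' hy', ← rl_iff h hx hy, s1 ⟨x, hx⟩, s1 ⟨y, hy⟩]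
        exact hτ ⟨x, hx⟩ ⟨y, hy⟩
      rcases h.2.2.1 x y with h2 | h2
      · have h3 : μ' (σ x) (σ y) ≠ a' := fun h4 => h.1 (h2.symm.trans (h1.1 h4))
        rw [h2, sc]
        exact ((h'.2.2.1 _ _).resolve_right h3).symm
      · rw [h2, sa]
        exact (h1.2 h2).symm
    · rw [dm_iff h] at hy
      have hy1 : y = c ∨ y = a := by
        by_contra hcon
        push Not at hcon
        exact hy hcon
      rcases hy1 with rfl | rfl
      · rw [(h.2.2.2.1 x).2.1, sc, (h'.2.2.2.1 (σ x)).2.1]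
      · rw [(h.2.2.2.1 x).2.2.2.1, sc, sa, (h'.2.2.2.1 (σ x)).2.2.2.1]
  · rw [dm_iff h] at hx
    have hx1 : x = c ∨ x = a := by
      by_contra hcon
      push Not at hcon
      exact hx hcon
    rcases hx1 with rfl | rfl
    · rw [(h.2.2.2.1 y).1, sc, (h'.2.2.2.1 (σ y)).1]
    · rw [(h.2.2.2.1 y).2.2.1, sc, sa, (h'.2.2.2.1 (σ y)).2.2.1]

open Classical in
/-- the coding of a graph -/
noncomputable def muN (g : ℕ → ℕ → Prop) (x y : ℕ) : ℕ :=
  if 2 ≤ x ∧ 2 ≤ y ∧ g (x - 2) (y - 2) then 1 else 0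

theorem muN_add (g : ℕ → ℕ → Prop) (x y : ℕ) : muN g (x + 2) (y + 2) = 1 ↔ g x y := by
  unfold muN
  split_ifs with h
  · exact ⟨fun _ => h.2.2, fun _ => rfl⟩
  · exact ⟨fun h' => absurd h' (by norm_num), fun h' => absurd ⟨by omega, by omega, h'⟩ h⟩

theorem ex_N (M : LG.Structure ℕ) (hM : StD.W 0 M) : ∃ μ, FN μ ∧ ∃ π : ℕ ≃ {x // dmN μ x},
    ∀ u v, rlN μ (π u) (π v) ↔ gd M u v := by
  obtain ⟨X, -, hX⟩ := hM.inf 1
  obtain ⟨w, -, -, -, -, -, hw, -, -⟩ := hX 0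
  have hF : FNc (muN (gd M)) 0 1 := by
    refine ⟨by norm_num, ⟨X 0 + 2, w + 2, (muN_add _ _ _).2 hw⟩, fun x y => ?_, fun x => ?_,
      fun x y => ?_⟩
    · unfold muN
      split_ifs
      · exact Or.inr rfl
      · exact Or.inl rfl
    · refine ⟨?_, ?_, ?_, ?_, ?_⟩
      · exact if_neg fun h => by omega
      · exact if_neg fun h => by omega
      · exact if_neg fun h => by omega
      · exact if_neg fun h => by omega
      · exact if_neg fun h => hM.sd.irrefl _ h.2.2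
    · unfold muN
      by_cases h : 2 ≤ x ∧ 2 ≤ y ∧ gd M (x - 2) (y - 2)
      · rw [if_pos h, if_pos ⟨h.2.1, h.1, hM.sd.symm _ _ h.2.2⟩]
      · rw [if_neg h, if_neg fun h' => h ⟨h'.2.1, h'.1, hM.sd.symm _ _ h'.2.2⟩]
  have hd : ∀ u, dmN (muN (gd M)) (u + 2) := fun u =>
    (dm_iff hF _).2 ⟨by omega, by omega⟩
  refine ⟨muN (gd M), ⟨0, 1, hF⟩, ⟨fun u => ⟨u + 2, hd u⟩, fun x => x.1 - 2, fun u => ?_,
    fun x => ?_⟩, fun u v => ?_⟩
  · show u + 2 - 2 = u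
    omega
  · apply Subtype.ext
    show x.1 - 2 + 2 = x.1
    have := (dm_iff hF _).1 x.2
    omega
  · exact (rl_iff hF (hd u) (hd v)).trans (muN_add _ _ _)

/-- **The leaf N.** -/
theorem leaf_N : Lf_N :=
  engine FN dmN rlN ax_N (fd_dmN (FT.var ())) (fd_rlN (FT.var 0) (FT.var 1))
    (fun μ ⟨c, a, h⟩ N => ⟨N + c + a + 1, by omega, (dm_iff h _).2 ⟨by omega, by omega⟩⟩)
    up_N ex_N fun μ ⟨c, a, h1, h2, h3, h4, h5⟩ => ⟨c, fun x y z => by
      rcases h3 x y with h | h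
      · rw [h]
        exact (h4 z).1
      · rw [h]
        exact (h4 z).2.2.1, fun x => (h4 x).2.2.2.2, h5⟩

end Pool.Agent.H97.FV
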